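import Pool.Agent.W317.CT.Stm

/-! CT-STR (project of helper317, MP_616471_al). -/

set_option autoImplicit false

namespace Pool.Agent.W925.CT

open Pool.Agent.W317.CT

/-- a curve with quadratic modulus of continuity is constant -/
theorem const_of_sq {Y : Type} [NormedAddCommGroup Y] (w : ℝ → Y) (M : ℝ)
    (h : ∀ s t : ℝ, ‖w t - w s‖ ≤ M * |t - s| ^ 2) (t : ℝ) : w t = w 0 := by
  by_contra hne
  have hpos : 0 < ‖w t - w 0‖ := norm_pos_iff.2 (sub_ne_zero.2 hne)
  have hM : 0 ≤ M := by
    have h1 := h 0 1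
    have h2 := norm_nonneg (w 1 - w 0)
    norm_num at h1
    linarith
  obtain ⟨n, hn⟩ := exists_nat_gt (M * t ^ 2 / ‖w t - w 0‖)
  rw [div_lt_iff₀ hpos] at hn
  have hn0 : 0 < (n : ℝ) := by
    rcases Nat.eq_zero_or_pos n with h0 | h0
    · exfalso
      subst h0
      have : 0 ≤ M * t ^ 2 := by positivity
      simp only [Nat.cast_zero, zero_mul] at hn
      linarith
    · exact_mod_cast h0
  have key : ∀ k : ℕ, ‖w (k * (t / n)) - w 0‖ ≤ k * (M * (t / n) ^ 2) := by
    intro k
    induction k with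
    | zero => simp
    | succ k ih =>
      have h1 := h (k * (t / n)) ((k + 1 : ℕ) * (t / n))
      have h2 : ((k + 1 : ℕ) : ℝ) * (t / n) - k * (t / n) = t / n := by push_cast; ring
      rw [h2, sq_abs] at h1
      have h3 : w ((k + 1 : ℕ) * (t / n)) - w 0 =
          (w ((k + 1 : ℕ) * (t / n)) - w (k * (t / n))) + (w (k * (t / n)) - w 0) := by abel
      rw [h3]
      refine (norm_add_le _ _).trans ?_
      push_cast at h1 ih ⊢
      linarith
  have h4 := key n
  have h5 : (n : ℝ) * (t / n) = t := by field_simp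
  rw [h5] at h4
  have h6 : (n : ℝ) * (M * (t / n) ^ 2) * n = M * t ^ 2 := by field_simp
  have h7 := mul_le_mul_of_nonneg_right h4 hn0.le
  rw [h6] at h7
  linarith

theorem str : S_STR := by
  intro b b' F K a hK hB hF y i t
  set c : ℝ → E × W := fun t => mul b' (inv (F y)) (F (mul b y (st i t))) with hc
  have hc1 : ∀ t, (c t).1 = t • a i := by
    intro t
    rw [hc]
    simp only [mul, inv]
    have := hF y i t
    simp only [mul] at this
    rw [this]; abel
  have hsq : ∀ s t : ℝ, ‖(c t).2 - (c s).2‖ ≤ K ^ 2 * |t - s| ^ 2 := by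
    intro s t
    have h1 := (hB (mul b y (st i s)) (mul b y (st i t))).2
    rw [d_st] at h1
    have h2 : d b' (c s) (c t) = d b' (F (mul b y (st i s))) (F (mul b y (st i t))) :=
      d_mul_left b' _ _ _
    rw [← h2, d_eq] at h1
    have h3 := (le_max_right _ _).trans h1
    rw [hc1, hc1] at h3
    have h4 : b'.B (s • a i) (t • a i) = 0 := by
      simp only [map_smul, LinearMap.smul_apply, b'.alt, smul_zero]
    rw [h4, sub_zero] at h3
    have h5 := Real.sqrt_le_iff.1 h3
    rw [← mul_pow]
    exact h5.2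
  have hconst := const_of_sq (fun t => (c t).2) (K ^ 2) hsq t
  have hc0 : c 0 = 0 := by
    rw [hc]
    simp
  have h6 : c t = (t • a i, 0) := by
    apply Prod.ext
    · exact hc1 t
    · simp only at hconst ⊢
      rw [hconst, hc0]; rfl
  have h7 : mul b' (F y) (c t) = F (mul b y (st i t)) := mul_inv_cancel_left' b' _ _
  rw [← h7, h6]

end Pool.Agent.W925.CT
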