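import Pool.Agent.W317.CT.Stm

/-! CT-UNIT (project of helper317, MP_616471_al). -/

set_option autoImplicit false

namespace Pool.Agent.W925.CT

open Pool.Agent.W317.CT Filter Topology

theorem tendsto_d (b : Form) {I : Type} {l : Filter I} {f g : I → E × W} {x y : E × W}
    (hf : Tendsto f l (𝓝 x)) (hg : Tendsto g l (𝓝 y)) :
    Tendsto (fun p => d b (f p) (g p)) l (𝓝 (d b x y)) := by
  have h2 : Tendsto (fun p => (f p, g p)) l (𝓝 (x,y)) := hf.prodMk_nhds hg
  have h := (continuous_d b).tendsto (x, y)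
  have h3 := h.comp h2
  simp only [Function.comp_def] at h3
  exact h3

theorem tendsto_fst' {I : Type} {l : Filter I} {f : I → E × W} {x : E × W}
    (hf : Tendsto f l (𝓝 x)) : Tendsto (fun p => (f p).1) l (𝓝 x.1) := by
  have h := (continuous_fst (X := E) (Y := W)).tendsto x
  have h3 := h.comp hf
  simp only [Function.comp_def] at h3
  exact h3

set_option maxHeartbeats 400000 in
theorem unit (hM : S_MEAN) (hE : S_ENER) (hL : S_LIM) : S_UNIT := by
  classical
  intro b b' F K hK hF0 hB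
  obtain ⟨m, hm⟩ := hM b
  have hLip : ∀ g h, ‖(F g).1 - (F h).1‖ ≤ K * d b g h := by
    intro g h
    have h1 := (hB h g).2
    rw [d_comm b g h]
    refine le_trans ?_ h1
    rw [d_eq]
    exact le_max_left _ _
  have hen := fun p : Finset (E × W) × ℕ => hE b m hm (fun g => (F g).1) K hLip
    (1 / ((p.2 : ℝ) + 1)) (by positivity) p.1
  choose s x hs hx using hen
  obtain ⟨Φ, hΦ⟩ : ∃ Φ : Finset (E × W) × ℕ → E × W → E × W, ∀ p y, Φ p y =
    dil (1 / s p) (mul b' (inv (F (x p))) (F (mul b (x p) (dil (s p) y)))) := ⟨_, fun _ _ => rfl⟩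
  have hΦd : ∀ p g h, d b' (Φ p g) (Φ p h) =
      (1 / s p) * d b' (F (mul b (x p) (dil (s p) g))) (F (mul b (x p) (dil (s p) h))) := by
    intro p g h
    rw [hΦ, hΦ, d_dil, d_mul_left, abs_of_pos (one_div_pos.2 (hs p))]
  have hΦB : ∀ p, BiLip (d b) (d b') (Φ p) K := by
    intro p g h
    rw [hΦd]
    have h1 := hB (mul b (x p) (dil (s p) g)) (mul b (x p) (dil (s p) h))
    rw [d_mul_left, d_dil, abs_of_pos (hs p)] at h1
    have hsp := hs p
    constructor
    · have h2 := mul_le_mul_of_nonneg_left h1.1 (one_div_pos.2 hsp).le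
      have h3 : 1 / s p * (s p * d b g h / K) = d b g h / K := by field_simp
      rwa [h3] at h2
    · have h2 := mul_le_mul_of_nonneg_left h1.2 (one_div_pos.2 hsp).le
      have h3 : 1 / s p * (K * (s p * d b g h)) = K * d b g h := by field_simp
      rwa [h3] at h2
  have hΦ0 : ∀ p, Φ p 0 = 0 := by
    intro p
    rw [hΦ]
    simp only [dil_zero', mul_zero', inv_mul']
  have hΦN : ∀ p y, N (Φ p y) ≤ K * N y := by
    intro p y
    have h1 := (hΦB p 0 y).2
    rw [hΦ0, d_zero_left, d_zero_left] at h1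
    exact h1
  have hΦ1 : ∀ p y, (Φ p y).1 = (1 / s p) • ((F (mul b (x p) (dil (s p) y))).1 - (F (x p)).1) := by
    intro p y
    rw [hΦ]
    simp only [dil, mul, inv]
    congr 1; abel
  have hΦe : ∀ p : Finset (E × W) × ℕ, ∀ y ∈ p.1, ∀ i : Fin 8,
      ‖(Φ p (mul b y (st i 1))).1 - (Φ p y).1 - (Φ p (st i 1)).1‖ ≤ 1 / ((p.2 : ℝ) + 1) := by
    intro p y hy i
    have h1 := hx p y hy i
    have hsp := hs p
    rw [hΦ1, hΦ1, hΦ1, ← smul_sub, ← smul_sub, norm_smul, Real.norm_eq_abs,
      abs_of_pos (one_div_pos.2 hsp)]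
    have h2 : (F (mul b (x p) (dil (s p) (mul b y (st i 1))))).1 - (F (x p)).1 -
        ((F (mul b (x p) (dil (s p) y))).1 - (F (x p)).1) -
        ((F (mul b (x p) (dil (s p) (st i 1)))).1 - (F (x p)).1) =
        ((F (mul b (x p) (dil (s p) (mul b y (st i 1))))).1 -
          (F (mul b (x p) (dil (s p) y))).1) -
        ((F (mul b (x p) (dil (s p) (st i 1)))).1 - (F (x p)).1) := by abel
    rw [h2]
    have h3 := mul_le_mul_of_nonneg_left h1 (one_div_pos.2 hsp).le
    have h4 : 1 / s p * (1 / ((p.2 : ℝ) + 1) * s p) = 1 / ((p.2 : ℝ) + 1) := by field_simp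
    rw [h4] at h3
    exact h3
  -- the ultralimit
  let U : Ultrafilter (Finset (E × W) × ℕ) := Ultrafilter.of atTop
  have hU : (U : Filter (Finset (E × W) × ℕ)) ≤ atTop := Ultrafilter.of_le atTop
  obtain ⟨G, hG⟩ := hL _ U Φ (fun g => ⟨K * N g, Eventually.of_forall fun p => hΦN p g⟩)
  refine ⟨G, fun i => (G (st i 1)).1, ?_, ?_, ?_⟩
  · have h1 := hG 0
    simp only [hΦ0] at h1
    exact tendsto_nhds_unique h1 tendsto_const_nhds |>.symm ▸ rfl
  · intro g h
    have h1 := tendsto_d b' (hG g) (hG h)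
    constructor
    · exact ge_of_tendsto h1 (Eventually.of_forall fun p => (hΦB p g h).1)
    · exact le_of_tendsto h1 (Eventually.of_forall fun p => (hΦB p g h).2)
  · intro y i
    have hfst : ∀ g, Tendsto (fun p => (Φ p g).1) (U : Filter _) (𝓝 (G g).1) := fun g =>
      tendsto_fst' (hG g)
    have h1 : Tendsto (fun p => ‖(Φ p (mul b y (st i 1))).1 - (Φ p y).1 - (Φ p (st i 1)).1‖)
        (U : Filter _) (𝓝 ‖(G (mul b y (st i 1))).1 - (G y).1 - (G (st i 1)).1‖) :=
      (((hfst _).sub (hfst _)).sub (hfst _)).norm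
    have h2 : Tendsto (fun p : Finset (E × W) × ℕ => 1 / ((p.2 : ℝ) + 1)) (U : Filter _) (𝓝 0) := by
      have h3 : Tendsto (fun p : Finset (E × W) × ℕ => p.2) atTop atTop := by
        rw [← prod_atTop_atTop_eq]
        exact tendsto_snd
      exact (tendsto_one_div_add_atTop_nhds_zero_nat.comp h3).mono_left hU
    have h4 : ∀ᶠ p in (U : Filter (Finset (E × W) × ℕ)), y ∈ p.1 := by
      apply hU
      filter_upwards [eventually_ge_atTop (({y} : Finset (E × W)), 0)] with p hp
      exact hp.1 (Finset.mem_singleton_self y)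
    have h5 := le_of_tendsto_of_tendsto h1 h2 (h4.mono fun p hp => hΦe p y hp i)
    have h6 := norm_le_zero_iff.1 h5
    rw [sub_sub] at h6
    exact sub_eq_zero.1 h6

end Pool.Agent.W925.CT
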